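import Mathlib
import Pool.Agent.Q175.Skel

/-!
# Every induced set is induced by a retractional skeleton indexed by its ranges

Let `(r_s)` be a retractional skeleton on the compact space `K` with induced set `D`. We choose a
monotone map `φ` from the finite subsets of `K` to the index set such that the points of `D` in the
finite set `a` belong to the range of `r_{φ a}`, and extend it to countable sets, which gives
retractions `R_A`. For an arbitrary set `P` let `K_P` be the closure of the union of the ranges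
of the `R_B`, `B ⊆ P` countable. With the help of a well-order of `K` we define recursively the set
`J` of all points `d` of `D` which do not belong to `K_P`, where `P` is the set of the predecessors
of `d` in `J`. For a cofinal set of countable subsets `A` of `J`, closed under unions
of increasing sequences, a point `d` of `J` belongs to the range of `R_A` only if it belongs
to `A`. So the inclusion of the ranges is equivalent to the inclusion of the index sets.
-/

open Set Filter Topology TopologicalSpace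
open Q175.Skel

namespace Pool.Agent.Results.MP_fcea8d_gt.IndexedByRanges

universe u v

/-- Retractional skeletons. -/
structure IsRetractionalSkeleton {K : Type u} [TopologicalSpace K] {Γ : Type v} [PartialOrder Γ]
    (r : Γ → K → K) : Prop where
  /-- the index set is nonempty -/
  nonempty : Nonempty Γ
  /-- the index set is up-directed -/
  directed : ∀ s t : Γ, ∃ u, s ≤ u ∧ t ≤ u
  /-- every increasing sequence of indices has a supremum -/
  sup : ∀ u : ℕ → Γ, Monotone u → ∃ t, IsLUB (range u) t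
  /-- each `r s` is continuous -/
  continuous : ∀ s, Continuous (r s)
  /-- each `r s` is a retraction -/
  retraction : ∀ s, r s ∘ r s = r s
  /-- the ranges are metrizable -/
  metrizable : ∀ s, MetrizableSpace (range (r s))
  /-- compatibility -/
  compat : ∀ s t, s ≤ t → r s = r s ∘ r t ∧ r s = r t ∘ r s
  /-- continuity along increasing sequences -/
  lim_seq : ∀ u : ℕ → Γ, Monotone u → ∀ t, IsLUB (range u) t → ∀ x,
    Tendsto (fun n => r (u n) x) atTop (𝓝 (r t x))
  /-- each point is the limit of its images -/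
  lim : ∀ x, Tendsto (fun s => r s x) atTop (𝓝 x)

/-- The set induced by a family of retractions. -/
def induced {K : Type u} {Γ : Type v} (r : Γ → K → K) : Set K := ⋃ s, range (r s)

section

set_option linter.unusedSectionVars false

variable {K : Type u} [TopologicalSpace K] [CompactSpace K] [T2Space K] {Γ : Type v}
  [PartialOrder Γ] {r : Γ → K → K}

/-- The closed subspace belonging to a set of indices. -/
def KP (r : Γ → K → K) (φ : Finset K → Γ) (P : Set K) : Set K :=
  closure (⋃ B : {B : Set K // B.Countable ∧ B ⊆ P}, range (r (S φ B.1)))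

theorem comp₁ (hr : IsRetractionalSkeleton r) {s t : Γ} (h : s ≤ t) (x : K) :
    r s (r t x) = r s x := (congrFun (hr.compat s t h).1 x).symm

theorem comp₂ (hr : IsRetractionalSkeleton r) {s t : Γ} (h : s ≤ t) (x : K) :
    r t (r s x) = r s x := (congrFun (hr.compat s t h).2 x).symm

theorem preSkel (hr : IsRetractionalSkeleton r) {φ : Finset K → Γ} (hφ : Monotone φ) (P : Set K) :
    PreSkel fun B : {B : Set K // B.Countable ∧ B ⊆ P} => r (S φ B.1) where
  ne := ⟨⟨∅, countable_empty, empty_subset _⟩⟩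
  dir := fun s t => ⟨⟨s.1 ∪ t.1, s.2.1.union t.2.1, union_subset s.2.2 t.2.2⟩,
    subset_union_left, subset_union_right⟩
  sup := by
    intro u _
    refine ⟨⟨⋃ n, (u n).1, countable_iUnion fun n => (u n).2.1,
      iUnion_subset fun n => (u n).2.2⟩, ?_, ?_⟩
    · rintro _ ⟨n, rfl⟩
      exact subset_iUnion (fun n => (u n).1) n
    · intro t ht
      exact iUnion_subset fun n => ht ⟨n, rfl⟩
  cont := fun s => hr.continuous _
  comp₁ := fun s t h x => comp₁ hr (S_mono hφ hr.sup t.2.1 h) x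
  comp₂ := fun s t h x => comp₂ hr (S_mono hφ hr.sup t.2.1 h) x
  lim := by
    intro u hu t ht x
    have h1 : IsLUB (range u) ⟨⋃ n, (u n).1, countable_iUnion fun n => (u n).2.1,
        iUnion_subset fun n => (u n).2.2⟩ := by
      refine ⟨?_, ?_⟩
      · rintro _ ⟨n, rfl⟩
        exact subset_iUnion (fun n => (u n).1) n
      · intro t ht
        exact iUnion_subset fun n => ht ⟨n, rfl⟩
    have h2 := ht.unique h1
    have hmono : Monotone fun n => (u n).1 := fun m n hmn => hu hmn
    have h3 := S_iUnion hφ hr.sup (fun n => (u n).2.1) hmono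
    have h4 : S φ t.1 = S φ (⋃ n, (u n).1) := by rw [h2]
    rw [h4]
    exact hr.lim_seq (fun n => S φ (u n).1)
      (fun m n hmn => S_mono hφ hr.sup (u n).2.1 (hu hmn)) _ h3 x

theorem isClosed_KP (φ : Finset K → Γ) (P : Set K) : IsClosed (KP r φ P) := isClosed_closure

theorem range_subset_KP (φ : Finset K → Γ) {P B : Set K} (hB : B.Countable) (hBP : B ⊆ P) (x : K) :
    r (S φ B) x ∈ KP r φ P :=
  subset_closure (mem_iUnion.2 ⟨⟨B, hB, hBP⟩, ⟨x, rfl⟩⟩)

theorem KP_mono (φ : Finset K → Γ) {P Q : Set K} (h : P ⊆ Q) : KP r φ P ⊆ KP r φ Q := by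
  refine closure_mono (iUnion_subset fun B => ?_)
  rintro _ ⟨x, rfl⟩
  exact mem_iUnion.2 ⟨⟨B.1, B.2.1, B.2.2.trans h⟩, ⟨x, rfl⟩⟩

theorem factorP (hr : IsRetractionalSkeleton r) {φ : Finset K → Γ} (hφ : Monotone φ) (P : Set K)
    (t : Γ) : ∃ B : Set K, B.Countable ∧ B ⊆ P ∧ ∀ x ∈ KP r φ P, r t (r (S φ B) x) = r t x := by
  have := hr.metrizable t
  let _ := metrizableSpaceMetric (range (r t))
  have hρ : Continuous fun x => (⟨r t x, mem_range_self x⟩ : range (r t)) :=
    (hr.continuous t).subtype_mk _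
  obtain ⟨B, hB⟩ := (preSkel hr hφ P).factor hρ
  exact ⟨B.1, B.2.1, B.2.2, fun x hx => congrArg Subtype.val (hB x hx)⟩

theorem exists_J (r : Γ → K → K) (φ : Finset K → Γ) : ∃ J : Set K, ∀ d, d ∈ J ↔
    d ∈ induced r ∧ d ∉ KP r φ {e | WellOrderingRel e d ∧ e ∈ J} := by
  obtain ⟨J, hJ⟩ := exists_rec (α := K) (β := Prop) (lt := WellOrderingRel)
    (IsWellFounded.wf) (fun d f t => t ↔ d ∈ induced r ∧ d ∉ KP r φ {e | ∃ h, f e h})
    (fun d f => ⟨_, Iff.rfl⟩)
  refine ⟨{d | J d}, fun d => ?_⟩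
  have h1 := hJ d
  have h2 : {e | ∃ _ : WellOrderingRel e d, J e} =
      {e | WellOrderingRel e d ∧ e ∈ {d | J d}} := by
    ext e
    exact ⟨fun ⟨h, h'⟩ => ⟨h, h'⟩, fun ⟨h, h'⟩ => ⟨h, h'⟩⟩
  rw [h2] at h1
  exact h1

/-- The good index sets. -/
def Good (r : Γ → K → K) (φ : Finset K → Γ) (J A : Set K) : Prop :=
  A.Countable ∧ A ⊆ J ∧ ∀ a : Finset K, (a : Set K) ⊆ A → ∀ β ∈ A,
    ∀ x ∈ KP r φ {e | WellOrderingRel e β ∧ e ∈ J},
      r (φ a) (r (S φ (A ∩ {e | WellOrderingRel e β ∧ e ∈ J})) x) = r (φ a) x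

theorem good_iUnion (hr : IsRetractionalSkeleton r) {φ : Finset K → Γ} (hφ : Monotone φ)
    {J : Set K} {A : ℕ → Set K} (hA : ∀ n, Good r φ J (A n)) (hmono : Monotone A) :
    Good r φ J (⋃ n, A n) := by
  refine ⟨countable_iUnion fun n => (hA n).1, iUnion_subset fun n => (hA n).2.1, ?_⟩
  intro a ha β hβ x hx
  obtain ⟨n, hn⟩ := hmono.directed_le.exists_mem_subset_of_finset_subset_biUnion ha
  obtain ⟨m, hm⟩ := mem_iUnion.1 hβ
  have hk1 : (a : Set K) ⊆ A (max m n) := hn.trans (hmono (le_max_right m n))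
  have hk2 : β ∈ A (max m n) := hmono (le_max_left m n) hm
  have hc : ((⋃ n, A n) ∩ {e | WellOrderingRel e β ∧ e ∈ J}).Countable :=
    (countable_iUnion fun n => (hA n).1).mono inter_subset_left
  have h1 := (hA (max m n)).2.2 a hk1 β hk2
    (r (S φ ((⋃ n, A n) ∩ {e | WellOrderingRel e β ∧ e ∈ J})) x)
    (range_subset_KP φ hc inter_subset_right x)
  rw [← h1, comp₁ hr (S_mono hφ hr.sup hc
    (inter_subset_inter_left _ (subset_iUnion A (max m n))))]
  exact (hA (max m n)).2.2 a hk1 β hk2 x hx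

theorem exists_good (hr : IsRetractionalSkeleton r) {φ : Finset K → Γ} (hφ : Monotone φ)
    {J B : Set K} (hB : B.Countable) (hBJ : B ⊆ J) : ∃ A, B ⊆ A ∧ Good r φ J A := by
  classical
  have hG := fun (a : Finset K) (β : K) =>
    factorP hr hφ {e | WellOrderingRel e β ∧ e ∈ J} (φ a)
  choose G hGc hGP hG using hG
  let nx : Set K → Set K := fun A => A ∪ ⋃ (p : Finset A × A),
    G (p.1.map (Function.Embedding.subtype _)) p.2.1
  have hnxc : ∀ A : Set K, A.Countable → (nx A).Countable := by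
    intro A hA
    have := hA.to_subtype
    exact hA.union (countable_iUnion fun p => hGc _ _)
  have hnxJ : ∀ A : Set K, A ⊆ J → nx A ⊆ J := by
    intro A hA
    refine union_subset hA (iUnion_subset fun p => ?_)
    exact (hGP _ _).trans fun e he => he.2
  let A : ℕ → Set K := fun n => nx^[n] B
  have hsucc : ∀ n, A (n + 1) = nx (A n) := fun n => Function.iterate_succ_apply' _ _ _
  have hc : ∀ n, (A n).Countable := by
    intro n
    induction n with
    | zero => exact hB
    | succ n ih => rw [hsucc]; exact hnxc _ ih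
  have hJ : ∀ n, A n ⊆ J := by
    intro n
    induction n with
    | zero => exact hBJ
    | succ n ih => rw [hsucc]; exact hnxJ _ ih
  have hmono : Monotone A := monotone_nat_of_le_succ fun n => by
    rw [hsucc]
    exact subset_union_left
  refine ⟨⋃ n, A n, subset_iUnion A 0, countable_iUnion hc, iUnion_subset hJ, ?_⟩
  intro a ha β hβ x hx
  obtain ⟨n, hn⟩ := hmono.directed_le.exists_mem_subset_of_finset_subset_biUnion ha
  obtain ⟨m, hm⟩ := mem_iUnion.1 hβ
  have hk1 : (a : Set K) ⊆ A (max m n) := hn.trans (hmono (le_max_right m n))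
  have hk2 : β ∈ A (max m n) := hmono (le_max_left m n) hm
  have hsub : G a β ⊆ A (max m n + 1) := by
    rw [hsucc]
    refine subset_union_of_subset_right ?_ _
    have h1 : (a.subtype fun x => x ∈ A (max m n)).map (Function.Embedding.subtype _) = a := by
      rw [Finset.subtype_map]
      exact Finset.filter_true_of_mem fun x hx => hk1 hx
    have h2 := subset_iUnion (fun p : Finset (A (max m n)) × A (max m n) =>
      G (p.1.map (Function.Embedding.subtype _)) p.2.1)
      (a.subtype fun x => x ∈ A (max m n), ⟨β, hk2⟩)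
    simp only at h2
    rw [h1] at h2
    exact h2
  have hsub' : G a β ⊆ (⋃ n, A n) ∩ {e | WellOrderingRel e β ∧ e ∈ J} :=
    subset_inter (hsub.trans (subset_iUnion A _)) (hGP a β)
  have hcc : ((⋃ n, A n) ∩ {e | WellOrderingRel e β ∧ e ∈ J}).Countable :=
    (countable_iUnion hc).mono inter_subset_left
  have h1 := hG a β (r (S φ ((⋃ n, A n) ∩ {e | WellOrderingRel e β ∧ e ∈ J})) x)
    (range_subset_KP φ hcc inter_subset_right x)
  rw [← h1, comp₁ hr (S_mono hφ hr.sup hcc hsub')]
  exact hG a β x hx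

theorem eq_of_phi (hr : IsRetractionalSkeleton r) {φ : Finset K → Γ} (hφ : Monotone φ)
    {A : Set K} (hA : A.Countable) {x y : K}
    (h : ∀ a : Finset K, (a : Set K) ⊆ A → r (φ a) x = r (φ a) y) :
    r (S φ A) x = r (S φ A) y := by
  obtain ⟨a, ha, haA, hlub⟩ := S_lub hφ hr.sup hA
  have h1 := hr.lim_seq _ ha _ hlub x
  have h2 := hr.lim_seq _ ha _ hlub y
  exact tendsto_nhds_unique h1 (h2.congr fun n => (h _ (haA n)).symm)

theorem fix_of_mem (hr : IsRetractionalSkeleton r) {φ : Finset K → Γ} (hφ : Monotone φ)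
    (hφD : ∀ a : Finset K, ∀ d ∈ a, d ∈ induced r → r (φ a) d = d) {A : Set K} (hA : A.Countable)
    {d : K} (hd : d ∈ A) (hdD : d ∈ induced r) : r (S φ A) d = d := by
  have h1 : r (φ {d}) d = d := hφD {d} d (Finset.mem_singleton_self d) hdD
  have h2 : φ {d} ≤ S φ A := le_S hφ hr.sup hA (by simpa using hd)
  have h3 := comp₂ hr h2 d
  rwa [h1] at h3

theorem fix_of_range (hr : IsRetractionalSkeleton r) {s : Γ} {d : K} (hd : d ∈ range (r s)) :
    r s d = d := by
  obtain ⟨x, rfl⟩ := hd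
  exact congrFun (hr.retraction s) x

theorem key (hr : IsRetractionalSkeleton r) {φ : Finset K → Γ} (hφ : Monotone φ)
    (hφD : ∀ a : Finset K, ∀ d ∈ a, d ∈ induced r → r (φ a) d = d) {J : Set K}
    (hJ : ∀ d, d ∈ J ↔ d ∈ induced r ∧ d ∉ KP r φ {e | WellOrderingRel e d ∧ e ∈ J})
    {A : Set K} (hA : Good r φ J A) {d : K} (hdJ : d ∈ J) (hd : d ∈ range (r (S φ A))) :
    d ∈ A := by
  classical
  by_contra hdA
  have hdJ' := (hJ d).1 hdJ
  by_cases hex : ∃ β ∈ A, WellOrderingRel d β
  · have hwf : WellFounded (WellOrderingRel : K → K → Prop) := IsWellFounded.wf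
    obtain ⟨β, ⟨hβA, hdβ⟩, hmin⟩ := hwf.has_min {β | β ∈ A ∧ WellOrderingRel d β} hex
    have hsub : A ∩ {e | WellOrderingRel e β ∧ e ∈ J} ⊆ {e | WellOrderingRel e d ∧ e ∈ J} := by
      rintro e ⟨heA, heβ, heJ⟩
      refine ⟨?_, heJ⟩
      rcases trichotomous_of WellOrderingRel e d with h | h | h
      · exact h
      · exact absurd (h ▸ heA) hdA
      · exact absurd heβ (hmin e ⟨heA, h⟩)
    have hcc : (A ∩ {e | WellOrderingRel e β ∧ e ∈ J}).Countable := hA.1.mono inter_subset_left
    have hdK : d ∈ KP r φ {e | WellOrderingRel e β ∧ e ∈ J} := by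
      have h1 := range_subset_KP (r := r) φ (P := {e | WellOrderingRel e β ∧ e ∈ J})
        (countable_singleton d) (singleton_subset_iff.2 ⟨hdβ, hdJ⟩) d
      rwa [fix_of_mem hr hφ hφD (countable_singleton d) (mem_singleton d) hdJ'.1] at h1
    have h2 := eq_of_phi hr hφ hA.1 fun a ha => hA.2.2 a ha β hβA d hdK
    rw [comp₂ hr (S_mono hφ hr.sup hA.1 inter_subset_left), fix_of_range hr hd] at h2
    apply hdJ'.2
    have h3 := range_subset_KP (r := r) φ hcc hsub d
    rwa [h2] at h3
  · push Not at hex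
    apply hdJ'.2
    have hsub : A ⊆ {e | WellOrderingRel e d ∧ e ∈ J} := by
      intro e he
      refine ⟨?_, hA.2.1 he⟩
      rcases trichotomous_of WellOrderingRel e d with h | h | h
      · exact h
      · exact absurd (h ▸ he) hdA
      · exact absurd h (hex e he)
    have h3 := range_subset_KP (r := r) φ hA.1 hsub d
    rwa [fix_of_range hr hd] at h3

theorem KP_J (hr : IsRetractionalSkeleton r) {φ : Finset K → Γ} (hφ : Monotone φ)
    (hφD : ∀ a : Finset K, ∀ d ∈ a, d ∈ induced r → r (φ a) d = d) {J : Set K}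
    (hJ : ∀ d, d ∈ J ↔ d ∈ induced r ∧ d ∉ KP r φ {e | WellOrderingRel e d ∧ e ∈ J}) (x : K) :
    x ∈ KP r φ J := by
  have h1 : ∀ d ∈ induced r, d ∈ KP r φ J := by
    intro d hd
    by_cases hdJ : d ∈ J
    · have h1 := range_subset_KP (r := r) φ (countable_singleton d)
        (singleton_subset_iff.2 hdJ) d
      rwa [fix_of_mem hr hφ hφD (countable_singleton d) (mem_singleton d) hd] at h1
    · have h2 : d ∈ KP r φ {e | WellOrderingRel e d ∧ e ∈ J} := by
        by_contra hcon
        exact hdJ ((hJ d).2 ⟨hd, hcon⟩)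
      exact KP_mono φ (fun e he => he.2) h2
  have := hr.nonempty
  have : IsDirectedOrder Γ := ⟨fun s t => hr.directed s t⟩
  refine (isClosed_KP φ J).mem_of_tendsto (hr.lim x) (Eventually.of_forall fun s => h1 _ ?_)
  exact mem_iUnion.2 ⟨s, ⟨x, rfl⟩⟩

/-- Every retraction of the skeleton is below one with an index coming from a countable subset of
`J`. -/
theorem exists_above (hr : IsRetractionalSkeleton r) {φ : Finset K → Γ} (hφ : Monotone φ)
    {J : Set K} (hJ : ∀ x, x ∈ KP r φ J) (t : Γ) :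
    ∃ B : Set K, B.Countable ∧ B ⊆ J ∧ ∃ t', t ≤ t' ∧ ∀ x, r (S φ B) x = r t' x := by
  classical
  choose F hFc hFJ hF using fun t => factorP hr hφ J t
  choose f hf1 hf2 using hr.directed
  let st : ℕ → Γ × Set K := fun n => Nat.rec (t, F t)
    (fun _ p => (f p.1 (S φ p.2), p.2 ∪ F (f p.1 (S φ p.2)))) n
  have hst : ∀ n, st (n + 1) = (f (st n).1 (S φ (st n).2),
    (st n).2 ∪ F (f (st n).1 (S φ (st n).2))) := fun n => rfl
  have hc : ∀ n, (st n).2.Countable := by
    intro n
    induction n with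
    | zero => exact hFc t
    | succ n ih => rw [hst]; exact ih.union (hFc _)
  have hsJ : ∀ n, (st n).2 ⊆ J := by
    intro n
    induction n with
    | zero => exact hFJ t
    | succ n ih => rw [hst]; exact union_subset ih (hFJ _)
  have hFs : ∀ n, F (st n).1 ⊆ (st n).2 := by
    intro n
    cases n with
    | zero => exact subset_rfl
    | succ n => rw [hst]; exact subset_union_right
  have hm1 : Monotone fun n => (st n).1 := monotone_nat_of_le_succ fun n => by
    rw [hst]
    exact hf1 _ _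
  have hm2 : Monotone fun n => (st n).2 := monotone_nat_of_le_succ fun n => by
    rw [hst]
    exact subset_union_left
  obtain ⟨t', ht'⟩ := hr.sup _ hm1
  have hS := S_iUnion hφ hr.sup hc hm2
  have hSt : S φ (⋃ n, (st n).2) ≤ t' := by
    refine hS.2 ?_
    rintro _ ⟨n, rfl⟩
    refine le_trans ?_ (ht'.1 ⟨n + 1, rfl⟩)
    show S φ (st n).2 ≤ (st (n + 1)).1
    rw [hst]
    exact hf2 _ _
  have hcU : (⋃ n, (st n).2).Countable := countable_iUnion hc
  refine ⟨⋃ n, (st n).2, hcU, iUnion_subset hsJ, t', ht'.1 ⟨0, rfl⟩, fun x => ?_⟩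
  have h1 : ∀ n, r (st n).1 (r (S φ (⋃ n, (st n).2)) x) = r (st n).1 x := by
    intro n
    have h2 := hF (st n).1 (r (S φ (⋃ n, (st n).2)) x) (hJ _)
    rw [← h2, comp₁ hr (S_mono hφ hr.sup hcU ((hFs n).trans (subset_iUnion (fun n => (st n).2) n)))]
    exact hF (st n).1 x (hJ _)
  have h2 := hr.lim_seq _ hm1 t' ht' (r (S φ (⋃ n, (st n).2)) x)
  have h3 := hr.lim_seq _ hm1 t' ht' x
  have h4 := tendsto_nhds_unique h2 (h3.congr fun n => (h1 n).symm)
  rw [comp₂ hr hSt] at h4
  exact h4

/-- Every set which is induced by a retractional skeleton is induced by a retractional skeleton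
which is indexed by its ranges, ordered by inclusion. -/
theorem result {K : Type u} [TopologicalSpace K] [CompactSpace K] [T2Space K] {Γ : Type v}
    [PartialOrder Γ] (r : Γ → K → K) (hr : IsRetractionalSkeleton r) :
    ∃ (𝓕 : Set (Set K)) (ρ : 𝓕 → K → K),
      (∀ F : 𝓕, IsCompact F.1) ∧
      (∀ u : ℕ → 𝓕, Monotone u →
        ∃ G : 𝓕, G.1 = closure (⋃ n, (u n).1) ∧ IsLUB (range u) G) ∧
      (∀ F : 𝓕, range (ρ F) = F.1) ∧
      IsRetractionalSkeleton ρ ∧
      induced ρ = induced r := by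
  classical
  -- the monotone map on the finite sets
  have hγ : ∀ d : K, ∃ s, d ∈ induced r → r s d = d := by
    intro d
    by_cases hd : d ∈ induced r
    · obtain ⟨s, hs⟩ := mem_iUnion.1 hd
      exact ⟨s, fun _ => fix_of_range hr hs⟩
    · obtain ⟨s⟩ := hr.nonempty
      exact ⟨s, fun h => absurd h hd⟩
  choose γ hγ using hγ
  obtain ⟨φ, hφ, hφγ⟩ := exists_phi hr.nonempty hr.directed γ
  have hφD : ∀ a : Finset K, ∀ d ∈ a, d ∈ induced r → r (φ a) d = d := by
    intro a d hda hd
    have h1 := comp₂ hr (hφγ a d hda) d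
    rwa [hγ d hd] at h1
  obtain ⟨J, hJ⟩ := exists_J r φ
  have hJx := KP_J hr hφ hφD hJ
  -- the coding of the ranges
  have hcode : ∀ A, Good r φ J A → J ∩ range (r (S φ A)) = A := by
    intro A hA
    ext d
    constructor
    · rintro ⟨h1, h2⟩
      exact key hr hφ hφD hJ hA h1 h2
    · intro hd
      have hdJ := hA.2.1 hd
      exact ⟨hdJ, ⟨d, fix_of_mem hr hφ hφD hA.1 hd ((hJ d).1 hdJ).1⟩⟩
  let 𝓕 : Set (Set K) := {F | ∃ A, Good r φ J A ∧ F = range (r (S φ A))}
  let ρ : 𝓕 → K → K := fun F => r (S φ (J ∩ F.1))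
  have hgood : ∀ F : 𝓕, Good r φ J (J ∩ F.1) ∧ F.1 = range (r (S φ (J ∩ F.1))) := by
    rintro ⟨F, A, hA, rfl⟩
    simp only
    rw [hcode A hA]
    exact ⟨hA, rfl⟩
  let mk : ∀ A, Good r φ J A → 𝓕 := fun A hA => ⟨range (r (S φ A)), A, hA, rfl⟩
  have hmk : ∀ A (hA : Good r φ J A), J ∩ (mk A hA).1 = A := fun A hA => hcode A hA
  have hcpt : ∀ F : 𝓕, IsCompact F.1 := by
    intro F
    rw [(hgood F).2]
    exact isCompact_range (hr.continuous _)
  have hsupF : ∀ u : ℕ → 𝓕, Monotone u → ∃ G : 𝓕, G.1 = closure (⋃ n, (u n).1) ∧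
      IsLUB (range u) G ∧ J ∩ G.1 = ⋃ n, J ∩ (u n).1 := by
    intro u hu
    have hmono : Monotone fun n => J ∩ (u n).1 := fun m n hmn =>
      inter_subset_inter_right _ (hu hmn)
    have hA := good_iUnion hr hφ (fun n => (hgood (u n)).1) hmono
    have hS := S_iUnion hφ hr.sup (fun n => (hgood (u n)).1.1) hmono
    have hSm : Monotone fun n => S φ (J ∩ (u n).1) := fun m n hmn =>
      S_mono hφ hr.sup (hgood (u n)).1.1 (hmono hmn)
    have hle : ∀ n, (u n).1 ⊆ (mk _ hA).1 := by
      intro n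
      rw [(hgood (u n)).2]
      rintro _ ⟨x, rfl⟩
      exact ⟨_, comp₂ hr (hS.1 ⟨n, rfl⟩) x⟩
    have heq : (mk _ hA).1 = closure (⋃ n, (u n).1) := by
      refine Subset.antisymm ?_ (closure_minimal (iUnion_subset hle) (hcpt _).isClosed)
      rintro _ ⟨x, rfl⟩
      refine mem_closure_of_tendsto (hr.lim_seq _ hSm _ hS x) (Eventually.of_forall fun n => ?_)
      refine mem_iUnion.2 ⟨n, ?_⟩
      have h1 : r (S φ (J ∩ (u n).1)) x ∈ range (r (S φ (J ∩ (u n).1))) := ⟨x, rfl⟩
      rwa [← (hgood (u n)).2] at h1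
    refine ⟨mk _ hA, heq, ⟨?_, ?_⟩, hmk _ hA⟩
    · rintro _ ⟨n, rfl⟩
      exact hle n
    · intro F hF
      show (mk _ hA).1 ⊆ F.1
      rw [heq]
      exact closure_minimal (iUnion_subset fun n => hF ⟨n, rfl⟩) (hcpt F).isClosed
  have hcov : ∀ B : Set K, B.Countable → B ⊆ J → ∃ F : 𝓕, ∀ F' : 𝓕, F ≤ F' → B ⊆ J ∩ F'.1 := by
    intro B hB hBJ
    obtain ⟨A, hBA, hA⟩ := exists_good hr hφ hB hBJ
    refine ⟨mk A hA, fun F' hF' => ?_⟩
    have h1 : J ∩ (mk A hA).1 ⊆ J ∩ F'.1 := inter_subset_inter_right _ hF'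
    rw [hmk A hA] at h1
    exact hBA.trans h1
  have hne : Nonempty 𝓕 := by
    obtain ⟨F, _⟩ := hcov ∅ countable_empty (empty_subset _)
    exact ⟨F⟩
  have hdir : ∀ s t : 𝓕, ∃ u, s ≤ u ∧ t ≤ u := by
    intro F F'
    obtain ⟨A, hBA, hA⟩ := exists_good hr hφ ((hgood F).1.1.union (hgood F').1.1)
      (union_subset (hgood F).1.2.1 (hgood F').1.2.1)
    refine ⟨mk A hA, ?_, ?_⟩
    · show F.1 ⊆ range (r (S φ A))
      rw [(hgood F).2]
      rintro _ ⟨x, rfl⟩
      exact ⟨_, comp₂ hr (S_mono hφ hr.sup hA.1 (subset_union_left.trans hBA)) x⟩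
    · show F'.1 ⊆ range (r (S φ A))
      rw [(hgood F').2]
      rintro _ ⟨x, rfl⟩
      exact ⟨_, comp₂ hr (S_mono hφ hr.sup hA.1 (subset_union_right.trans hBA)) x⟩
  have hdirI : IsDirectedOrder 𝓕 := ⟨fun s t => hdir s t⟩
  have hΓne := hr.nonempty
  have hΓdir : IsDirectedOrder Γ := ⟨fun s t => hr.directed s t⟩
  refine ⟨𝓕, ρ, hcpt, fun u hu => ?_, fun F => (hgood F).2.symm, ?_, ?_⟩
  · obtain ⟨G, h1, h2, _⟩ := hsupF u hu
    exact ⟨G, h1, h2⟩
  · refine ⟨hne, hdir, ?_, fun F => hr.continuous _, fun F => hr.retraction _,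
      fun F => hr.metrizable _, fun F F' h => ?_, ?_, ?_⟩
    · intro u hu
      obtain ⟨G, _, h2, _⟩ := hsupF u hu
      exact ⟨G, h2⟩
    · exact hr.compat _ _ (S_mono hφ hr.sup (hgood F').1.1 (inter_subset_inter_right _ h))
    · intro u hu t ht x
      obtain ⟨G, _, h2, h3⟩ := hsupF u hu
      have h4 := ht.unique h2
      subst h4
      have hmono : Monotone fun n => J ∩ (u n).1 := fun m n hmn =>
        inter_subset_inter_right _ (hu hmn)
      have hS := S_iUnion hφ hr.sup (fun n => (hgood (u n)).1.1) hmono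
      have hSm : Monotone fun n => S φ (J ∩ (u n).1) := fun m n hmn =>
        S_mono hφ hr.sup (hgood (u n)).1.1 (hmono hmn)
      show Tendsto (fun n => r (S φ (J ∩ (u n).1)) x) atTop (𝓝 (r (S φ (J ∩ t.1)) x))
      rw [h3]
      exact hr.lim_seq _ hSm _ hS x
    · intro x
      refine isCompact_univ.tendsto_nhds_of_unique_mapClusterPt
        (Eventually.of_forall fun _ => mem_univ _) fun z _ hz => ?_
      have h1 : ∀ t, r t z = r t x := by
        intro t
        obtain ⟨B, hBc, hBJ, hB⟩ := factorP hr hφ J t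
        obtain ⟨F₀, hF₀⟩ := hcov B hBc hBJ
        have h2 : ∀ᶠ F : 𝓕 in atTop, r t (ρ F x) = r t x := by
          filter_upwards [eventually_ge_atTop F₀] with F hF
          have h3 := hB (ρ F x) (hJx _)
          rw [← h3]
          show r t (r (S φ B) (r (S φ (J ∩ F.1)) x)) = r t x
          rw [comp₁ hr (S_mono hφ hr.sup (hgood F).1.1 (hF₀ F hF))]
          exact hB x (hJx _)
        by_contra hne
        have hopen : IsOpen {y | r t y ≠ r t x} :=
          isOpen_ne_fun (hr.continuous t) continuous_const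
        obtain ⟨F, hF1, hF2⟩ := ((mapClusterPt_iff_frequently.1 hz _
          (hopen.mem_nhds hne)).and_eventually h2).exists
        exact hF1 hF2
      exact tendsto_nhds_unique (hr.lim z) ((hr.lim x).congr fun t => (h1 t).symm)
  · refine Subset.antisymm (iUnion_subset fun F => ?_) ?_
    · rintro _ ⟨x, rfl⟩
      exact mem_iUnion.2 ⟨S φ (J ∩ F.1), ⟨x, rfl⟩⟩
    · intro d hd
      obtain ⟨t, ht⟩ := mem_iUnion.1 hd
      obtain ⟨B, hBc, hBJ, t', htt', hB⟩ := exists_above hr hφ hJx t
      obtain ⟨A, hBA, hA⟩ := exists_good hr hφ hBc hBJ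
      have h1 : r (S φ B) d = d := by
        rw [hB]
        have h2 := comp₂ hr htt' d
        rwa [fix_of_range hr ht] at h2
      have h2 := comp₂ hr (S_mono hφ hr.sup hA.1 hBA) d
      rw [h1] at h2
      refine mem_iUnion.2 ⟨mk A hA, ⟨d, ?_⟩⟩
      show r (S φ (J ∩ (mk A hA).1)) d = d
      rw [hmk A hA]
      exact h2

end

end Pool.Agent.Results.MP_fcea8d_gt.IndexedByRanges
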